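import Pool.Agent.helper26.IM.SpecA

/-!
# im:FVT, tensors with finitely many values
-/

set_option autoImplicit false

open Finset

namespace Pool.Agent.helper26.IM

open Finset Pool.Agent.RRank Pool.Agent.helper35.MR

/-- three types -/
def FVT_Q (X Y Z : Type) : Fin 3 → Type
  | 0 => X
  | 1 => Y
  | 2 => Z

theorem FVT_side {X Y Z K : Type} [Field K] [Fintype X] (T : X → Y → Z → K) :
    S3 T (Fintype.card X) := by
  classical
  refine S3.of_fintype (P := X) (Q := Fin 0) (S := Fin 0) (fun p x => if x = p then 1 else 0)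
    (fun p y z => T p y z) (fun i => i.elim0) (fun i => i.elim0) (fun i => i.elim0)
    (fun i => i.elim0) (by simp) fun x y z => ?_
  simp

theorem FVT (hS : SL3_stmt) (hC : CV3_stmt) (hN : NFR_stmt) : FVT_stmt := by
  classical
  intro m l
  obtain ⟨G, hG⟩ := hS
  refine ⟨G m l, ?_⟩
  intro K _ X Y Z T hfin hcard hT
  rcases Nat.eq_zero_or_pos l with rfl | hl
  · refine ⟨fun i => i.elim0, fun i => i.elim0, fun i => i.elim0, ?_⟩
    intro U V W h
    exfalso
    have h0 : ∀ U : Submodule K (Fin 0 → K), Module.finrank K U = 0 := by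
      intro U
      have := Submodule.finrank_le U
      rw [Module.finrank_fin_fun] at this
      omega
    rw [h0 U, h0 V, h0 W] at h
    simp at h
  let T' : ((α : Fin 3) → FVT_Q X Y Z α) → K := fun p => T (p 0) (p 1) (p 2)
  have hrange : Set.range T' = Set.range (fun p : X × Y × Z => T p.1 p.2.1 p.2.2) := by
    ext c
    constructor
    · rintro ⟨p, rfl⟩
      exact ⟨(p 0, p 1, p 2), rfl⟩
    · rintro ⟨p, rfl⟩
      exact ⟨mk3 (Q := FVT_Q X Y Z) p.1 p.2.1 p.2.2, rfl⟩
  have hrank : (G m l : ℕ∞) ≤ rank (slices 3) T' := by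
    by_contra hlt
    push Not at hlt
    obtain ⟨r, hr, hs⟩ := exists_sumOf_of_rank_lt hlt
    exact hT ((hC K (FVT_Q X Y Z) T' (G m l)).1 ⟨r, hr.le, hs⟩)
  obtain ⟨X', hX1, hX2⟩ := hG K (FVT_Q X Y Z) T' m l (by rw [hrange]; exact hfin)
    (by rw [hrange]; exact hcard) hrank
  have hno : ∀ r < l, ¬ S3 (fun (x : X' 0) (y : X' 1) (z : X' 2) =>
      T (x : FVT_Q X Y Z 0) (y : FVT_Q X Y Z 1) (z : FVT_Q X Y Z 2)) r := by
    intro r hr hs
    obtain ⟨r', hr', hs'⟩ := (hC K (fun α => X' α) (minor T' X') r).2 hs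
    exact not_sumOf_of_le_rank hX2 (lt_of_le_of_lt hr' hr) hs'
  have c0 : (X' 0).card = l := by
    by_contra hne
    have hlt : (X' 0).card < l := lt_of_le_of_ne (hX1 0) hne
    refine hno _ hlt ?_
    have := FVT_side (fun (x : X' 0) (y : X' 1) (z : X' 2) =>
      T (x : FVT_Q X Y Z 0) (y : FVT_Q X Y Z 1) (z : FVT_Q X Y Z 2))
    rwa [Fintype.card_coe] at this
  have c1 : (X' 1).card = l := by
    by_contra hne
    have hlt : (X' 1).card < l := lt_of_le_of_ne (hX1 1) hne
    refine hno _ hlt ?_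
    have := FVT_side (fun (y : X' 1) (x : X' 0) (z : X' 2) =>
      T (x : FVT_Q X Y Z 0) (y : FVT_Q X Y Z 1) (z : FVT_Q X Y Z 2))
    rw [Fintype.card_coe] at this
    exact this.swap12
  have c2 : (X' 2).card = l := by
    by_contra hne
    have hlt : (X' 2).card < l := lt_of_le_of_ne (hX1 2) hne
    refine hno _ hlt ?_
    have := FVT_side (fun (z : X' 2) (y : X' 1) (x : X' 0) =>
      T (x : FVT_Q X Y Z 0) (y : FVT_Q X Y Z 1) (z : FVT_Q X Y Z 2))
    rw [Fintype.card_coe] at this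
    exact this.swap13
  let e0 : X' 0 ≃ Fin l := (X' 0).equivFinOfCardEq c0
  let e1 : X' 1 ≃ Fin l := (X' 1).equivFinOfCardEq c1
  let e2 : X' 2 ≃ Fin l := (X' 2).equivFinOfCardEq c2
  refine ⟨fun i => ((e0.symm i : X' 0) : FVT_Q X Y Z 0), fun i => ((e1.symm i : X' 1) : FVT_Q X Y Z 1),
    fun i => ((e2.symm i : X' 2) : FVT_Q X Y Z 2), ?_⟩
  by_contra hfull
  have h1 := hN K (Fin l) _ hfull
  rw [Fintype.card_fin] at h1
  have h2 := h1.comp (f := fun x : X' 0 => e0 x) (g := fun y : X' 1 => e1 y)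
    (k := fun z : X' 2 => e2 z)
  refine hno (l - 1) (by omega) ?_
  simpa only [Equiv.symm_apply_apply] using h2

end Pool.Agent.helper26.IM
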