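import Pool.Agent.helper26.IM.SpecA

/-!
# im:SWX, symmetries of `Ex`
-/

set_option autoImplicit false

open Finset

namespace Pool.Agent.helper26.IM

open Finset Pool.Agent.RRank Pool.Agent.helper35.MR

theorem SWX : SWX_stmt := by
  intro l fx fy fz
  constructor
  · rintro ⟨K, _, _, X, Y, Z, T, N, q, α, β, γ, h1, h2, h3, h4, h5, h6⟩
    refine ⟨K, inferInstance, inferInstance, Y, X, Z, fun y x z => T x y z, N, q, β, α, γ, ?_, ?_,
      ?_, h5, h4, h6⟩
    · intro r h
      exact h1 r h.swap12
    · intro h
      exact h2 h.swap12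
    · intro y x z
      rw [← h3 x y z]
      congr 1
      refine Finset.sum_congr rfl fun i _ => ?_
      congr 1
      exact Finset.sum_congr rfl fun s _ => by ring
  · rintro ⟨K, _, _, X, Y, Z, T, N, q, α, β, γ, h1, h2, h3, h4, h5, h6⟩
    refine ⟨K, inferInstance, inferInstance, Z, Y, X, fun z y x => T x y z, N, q, γ, β, α, ?_, ?_,
      ?_, h6, h5, h4⟩
    · intro r h
      exact h1 r h.swap13
    · intro h
      exact h2 h.swap13
    · intro z y x
      rw [← h3 x y z]
      congr 1
      refine Finset.sum_congr rfl fun i _ => ?_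
      congr 1
      exact Finset.sum_congr rfl fun s _ => by ring

end Pool.Agent.helper26.IM
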